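import Pool.Agent.D0H56.SN.Mem

/-!
# Testing an upper bound on the tensor spectral norm is `∀ℝ`-complete

SPECTRAL-NORM-BOUND (`NormBound`: given `d ≥ 1`, a tensor `T` of the format `d × d × d` with
rational entries and a rational number `σ > 0`, is `‖T‖ ≤ σ`?) is `∀ℝ`-complete, and its complement
SPECTRAL-NORM-EXCEED (`NormExceed`) is `∃ℝ`-complete, under polynomial-time many-one reductions.
The definitions are in `Pool/Agent/D0H56/SN/Defs.lean`, those of `∃ℝ` in `Pool/Agent/ER/Defs.lean`.

Idea of the hardness proof.

* A family of symmetric matrices `M` with `∑ (xᵀ M y)² = ∑ (xᵀ M x) (yᵀ M y)` for all `x`, `y` (that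
  is, `∑ M ⊗ M` is a totally symmetric tensor) satisfies, by the inequality of Cauchy and Schwarz,
  `max ∑ (xᵀ M y)² = max ∑ (xᵀ M x)²` over unit vectors. The tensor whose slices are the matrices
  `M` has the spectral norm `(max_x H(x))^(1/2)` with the quartic form `H(x) = ∑ (xᵀ M x)²`.
* Every quartic form `G` with small integer coefficients can be realised in this way up to a
  multiple of `|x|⁴`: there is an explicit family with `H(x) = 36 (n + 1)² |x|⁴ + 24 G(x)`, where `n`
  is the number of monomials of `G`. So the spectral norm is larger than `6 (n + 1)` if and only if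
  `G` has a positive value.
* A system of constraints `x = 1`, `x + y = z`, `x y = z` is satisfiable if and only if the form
  `G = y⁴ - ∑ q²` has a positive value. Here the `q` are the homogenized constraints of a bounded
  version of the system, of a chain of squarings which defines `y = 8 ^ (-2 ^ K)`, and of the
  equations `64 w² + s² = x₀²`; if `G > 0` then `y` is at most doubly exponentially small and the
  gap theorem for systems of polynomial constraints applies.
-/

set_option autoImplicit false

namespace Pool.Agent.Results.MP_50cd9e_lc.SpectralNormComplete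

open Pool.Agent.NPC Pool.Agent.NPC.ER Pool.Agent.D0H56.SN

/-- SPECTRAL-NORM-BOUND is `∀ℝ`-complete, and SPECTRAL-NORM-EXCEED is `∃ℝ`-complete. -/
theorem result : ARComplete (lang NormBound) ∧ ERComplete (lang NormExceed) :=
  ⟨⟨Pool.Agent.NPC.D0H56SN.mem_bound, Pool.Agent.NPC.D0H56SN.hard_bound⟩,
    Pool.Agent.NPC.D0H56SN.mem_exceed, Pool.Agent.NPC.D0H56SN.hard_exceed⟩

end Pool.Agent.Results.MP_50cd9e_lc.SpectralNormComplete
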